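import Pool.Agent.Helper46.NU.Names

/-!
# MP_1fe1ca_lc: packet ADD
-/

open MeasureTheory Filter Topology Set

noncomputable section

namespace NU.PkADD

open Pool.Agent.Helper97.Ku

/-- A coordinate seeing countably many coordinates for every `i : W`. -/
theorem exists_seeing (W A B D : Type) [LinearOrder A] [WellFoundedLT A] [LinearOrder B]
    (hS : Sizes W A B D) (Γ : W → Set (Co A B D)) (hΓ : ∀ i, (Γ i).Countable) :
    ∃ q : Co A B D, Co.gen q ∧ ∀ i, ∀ c ∈ Γ i, Co.see q c := by
  classical
  obtain ⟨a₀⟩ := hS.neA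
  obtain ⟨b₀⟩ := hS.neB
  have : Nonempty (Co A B D) := ⟨Co.x a₀⟩
  have h1 : ∀ i, ∃ g : ℕ → Co A B D, Γ i ⊆ Set.range g := fun i =>
    (Set.countable_iff_exists_subset_range).1 (hΓ i)
  choose g hg using h1
  let pA : Co A B D → A := fun c => match c with
    | Co.x a => a
    | Co.c a _ => a
    | _ => a₀
  let pB : Co A B D → B := fun c => match c with
    | Co.y b => b
    | Co.c _ b => b
    | _ => b₀
  obtain ⟨a, ha⟩ := hS.bdA fun p => pA (g p.1 p.2)
  obtain ⟨b, hb⟩ := hS.bdW fun p => pB (g p.1 p.2)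
  refine ⟨Co.c a b, trivial, fun i c hc => ?_⟩
  obtain ⟨n, hn⟩ := hg i hc
  have ha' := ha (i, n)
  have hb' := hb (i, n)
  simp only [hn] at ha' hb'
  cases c with
  | x a' => exact ha'
  | y b' => exact hb'
  | d i' => exact trivial
  | c a' b' => exact ⟨ha', hb'⟩

theorem add (ex1 : G_EX1) (ex2 : G_EX2) (fam : G_FAM) (mno : G_MNO) (nu0 : G_NU0) (in1 : G_IN1)
    (avo : G_AVO) (cap : G_CAP) : G_ADD := by
  intro W A B D _ _ _ hS L _ e hA
  have := hS.unc
  obtain ⟨j, hj⟩ := hS.inj
  have hmeas : ∀ c : (Sy A B D).C, Measurable fun z : Pt (Sy A B D) => z c := fun c =>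
    measurable_pi_apply c
  have hnull : ∀ c : (Sy A B D).C, nullV omN (NsN e fun z => z c) = ⊤ := fun c =>
    nu0 (Sy A B D) L e hA _ (hmeas c)
  have hfam := fam L W (fun i : W => NsN e fun z : Pt (Sy A B D) => z (Co.d (j i)))
  refine eq_top_iff.2 (le_trans ?_ (le_iSup _
    (famN fun i : W => NsN e fun z : Pt (Sy A B D) => z (Co.d (j i)))))
  refine le_inf ?_ (le_inf ?_ ?_)
  · -- all members are null sets
    unfold famV
    rw [hfam.2.1 (fun M => nullV omN M) ((ex2 L).2.2 omN).2.1]
    exact le_iInf fun i => (hnull _).ge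
  · -- no null set contains all of them
    refine le_iInf fun U => ?_
    rw [hfam.2.1 (fun M => subV M U) ((ex1 L).1 U).1]
    obtain ⟨Γ, hΓ, h1, -⟩ := avo (Sy A B D) L e hA U
    have h2 : ∃ i : W, (Co.d (j i) : Co A B D) ∉ Γ := by
      by_contra hcon
      push Not at hcon
      have hinj : Function.Injective fun i : W => (Co.d (j i) : Co A B D) := by
        intro i i' h
        exact hj (Co.d.inj h)
      have h3 : ((fun i : W => (Co.d (j i) : Co A B D)) ⁻¹' Γ).Countable :=
        hΓ.preimage hinj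
      have h4 : (fun i : W => (Co.d (j i) : Co A B D)) ⁻¹' Γ = Set.univ :=
        Set.eq_univ_of_forall hcon
      rw [h4, Set.countable_univ_iff] at h3
      exact not_countable h3
    obtain ⟨i, hi⟩ := h2
    have h5 := h1 (Co.d (j i)) hi trivial (fun c => by
      cases c <;> exact fun h => h)
    rw [le_himp_iff, top_inf_eq, le_compl_iff_disjoint_right, disjoint_iff_inf_le]
    exact le_trans (inf_le_inf_left _ (iInf_le _ i)) h5.le
  · -- small sets are null
    refine le_iInf fun Y => ?_
    rw [le_himp_iff, top_inf_eq, le_himp_iff, le_compl_iff_disjoint_right, disjoint_iff_inf_le]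
    have key : realsV omN Y ⊓ injV (fun y => y.mem Y)
        (fun M => M.mem (famN fun i : W => NsN e fun z : Pt (Sy A B D) => z (Co.d (j i)))) ≤
        nullV omN Y := by
      obtain ⟨w, hw, h1⟩ := in1 (Sy A B D) L e hA W
        (fun i : W => NsN e fun z : Pt (Sy A B D) => z (Co.d (j i))) Y _ inf_le_left inf_le_right
      have h2 := fun i => cap (Sy A B D) L e hA (w i) (hw i)
      choose Γ hΓ h3 using h2
      obtain ⟨q, hq, hsee⟩ := exists_seeing W A B D hS Γ hΓ
      have h4 : ∀ i, (rnN e (w i)).mem (NsN e fun z : Pt (Sy A B D) => z q) = ⊤ :=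
        fun i => h3 i q hq (hsee i)
      refine le_trans ?_ (mno L omN Y (NsN e fun z : Pt (Sy A B D) => z q))
      refine le_inf inf_le_left (le_inf ?_ ?_)
      · rw [hnull]; exact le_top
      · unfold subV
        refine le_iInf fun t => ?_
        rw [le_himp_iff]
        refine le_trans (h1 t) (iSup_le fun i => ?_)
        refine le_trans ?_ (BSet.mem_congr_left (rnN e (w i)) t _)
        rw [h4 i, inf_top_eq, BSet.eq_comm']
    refine le_trans (le_inf (le_trans ?_ key) ?_) (inf_compl_self (nullV omN Y)).le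
    · exact le_inf (le_trans inf_le_left inf_le_left) inf_le_right
    · exact le_trans inf_le_left inf_le_right

end NU.PkADD
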