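import Pool.Agent.Helper46.NU.Goals1

/-!
# MP_1fe1ca_lc, packet LOC: locality of the points
-/

set_option autoImplicit false

open MeasureTheory Filter Topology Set
open scoped ENNReal

namespace NU.PkLOC

theorem loc : G_LOC := by
  intro S V hV φ φ' ω ω' hφ hω c
  induction c using S.wf.induction with
  | _ c ih =>
    intro hc
    funext n
    rw [zz_eq, zz_eq, ← hω c hc, ← hφ c hc n]
    have hmask : mask S c (zz S φ ω) = mask S c (zz S φ' ω') := by
      funext c' m
      unfold mask
      split_ifs with h
      · exact congrFun (ih c' h (hV c hc c' h)) m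
      · rfl
    rw [hmask]

end NU.PkLOC
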